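import Pool.Agent.Q270.Lam.Fin

set_option autoImplicit false

/-!
# Lower asymptotic constants for binomial coefficients prime to `p`, `p = 5, 7, 11`

Let `f p n` be the number of entries of rows `0, ..., n - 1` of Pascal's triangle that are prime to `p`,
`theta p = log (p (p + 1) / 2) / log p` and `lam p` the lower limit of `f p n / n ^ (theta p)`. Then
`lam 5 = (3/2) ^ (1 - theta 5)`, `lam 7 = (3/2) ^ (1 - theta 7)` and `lam 11 = (59/44) (22/31) ^ (theta 11)`.

Proof. If `n = b p ^ k + m`, `b < p`, `m ≤ p ^ k`, then `f n = b (b + 1) / 2 A ^ k + (b + 1) f m` with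
`A = p (p + 1) / 2`. By induction on `k`, `f m ≥ A ^ k (1/4 + s (m / p ^ k - 1/2))` for two slopes `s`, one above
and one below the slope of the extremal power function at the extremal point; the induction step is a finite
number of rational inequalities. Together with the first two digits of `n` this gives a piecewise linear lower
bound of `f n`, and as the power function is convex, the inequality `f n ≥ λ n ^ θ` has to be checked at
finitely many rational points only. Equality holds in the limit along `n = (3 p ^ k - 1) / 2` for `p = 5, 7`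
and along `n = 11 ^ (k + 1) + 4 * 11 ^ k + (11 ^ k - 1) / 2` for `p = 11`.
-/

namespace Pool.Agent.Results.MP_165cab_nt.LowerConstants

/-- The number of pairs `(k, j)` with `0 ≤ j ≤ k ≤ n - 1` such that `p` does not divide `k.choose j`. -/
def f (p n : ℕ) : ℕ :=
  ∑ k ∈ Finset.range n, ((Finset.range (k + 1)).filter (fun j => ¬ p ∣ k.choose j)).card

/-- `log (p (p + 1) / 2) / log p` -/
noncomputable def theta (p : ℕ) : ℝ := Real.log ((p : ℝ) * (p + 1) / 2) / Real.log p

/-- the lower limit of `f p n * n ^ (- theta p)` -/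
noncomputable def lam (p : ℕ) : ℝ :=
  Filter.liminf (fun n : ℕ => (f p n : ℝ) * (n : ℝ) ^ (-theta p)) Filter.atTop

theorem result :
    lam 5 = (3 / 2 : ℝ) ^ (1 - theta 5) ∧
    lam 7 = (3 / 2 : ℝ) ^ (1 - theta 7) ∧
    lam 11 = 59 / 44 * (22 / 31 : ℝ) ^ theta 11 :=
  ⟨Pool.Agent.Q270.Lam.lim_half Pool.Agent.Q270.Lam.D5 (d := 2) rfl (by norm_num),
    Pool.Agent.Q270.Lam.lim_half Pool.Agent.Q270.Lam.D7 (d := 3) rfl (by norm_num),
    Pool.Agent.Q270.Lam.lim_eleven⟩

end Pool.Agent.Results.MP_165cab_nt.LowerConstants
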